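import Pool.Agent.Lib.MP_efa40c_ag.SQ.Space

/-!
The rational normal curve through `n + 3` points obstructs the surjectivity of the last
`(k + 1)`-th derivative onto a degree close to `n k / 3`.
-/

namespace Pool.Agent.Lib.MP_efa40c_ag.SQ

open MvPolynomial Finset

section General

variable {σ : Type} [Fintype σ] [DecidableEq σ]

omit [Fintype σ] [DecidableEq σ] in
lemma eval_aeval (γ : σ → Polynomial ℂ) (t : ℂ) (F : MvPolynomial σ ℂ) :
    (aeval γ F).eval t = eval (fun s => (γ s).eval t) F := by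
  induction F using MvPolynomial.induction_on with
  | C a => simp
  | add f g hf hg => simp [hf, hg]
  | mul_X f i hf => simp [hf]

omit [Fintype σ] [DecidableEq σ] in
lemma dvd_aeval (γ : σ → Polynomial ℂ) (t : ℂ) {F : MvPolynomial σ ℂ} {e : ℕ}
    (hF : F ∈ (RingHom.ker (eval (fun s => (γ s).eval t))) ^ e) :
    (Polynomial.X - Polynomial.C t) ^ e ∣ aeval γ F := by
  have h1 : Ideal.map (aeval γ : MvPolynomial σ ℂ →ₐ[ℂ] Polynomial ℂ)
      (RingHom.ker (eval (fun s => (γ s).eval t)))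
      ≤ Ideal.span {Polynomial.X - Polynomial.C t} := by
    rw [Ideal.map_le_iff_le_comap]
    intro G hG
    rw [Ideal.mem_comap, Ideal.mem_span_singleton, Polynomial.dvd_iff_isRoot, Polynomial.IsRoot,
      eval_aeval]
    exact hG
  have h2 := Ideal.mem_map_of_mem (aeval γ : MvPolynomial σ ℂ →ₐ[ℂ] Polynomial ℂ) hF
  rw [Ideal.map_pow] at h2
  have h3 := Ideal.pow_right_mono h1 e h2
  rwa [Ideal.span_singleton_pow, Ideal.mem_span_singleton] at h3

lemma card_mul_le_natDegree {P : Polynomial ℂ} (hP : P ≠ 0) (T : Finset ℂ) (e : ℕ)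
    (he : ∀ a ∈ T, (Polynomial.X - Polynomial.C a) ^ e ∣ P) : T.card * e ≤ P.natDegree := by
  have hd : ∏ a ∈ T, (Polynomial.X - Polynomial.C a) ^ e ∣ P := by
    apply Finset.prod_dvd_of_coprime
    · intro i _ j _ hij
      exact (Polynomial.pairwise_coprime_X_sub_C (s := fun a : ℂ => a) Function.injective_id
        hij).pow
    · exact he
  have := Polynomial.natDegree_le_of_dvd hd hP
  rwa [Polynomial.natDegree_prod_of_monic _ _ (fun k _ => (Polynomial.monic_X_sub_C _).pow _),
    Finset.sum_congr rfl (fun l _ => by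
      rw [Polynomial.natDegree_pow, Polynomial.natDegree_X_sub_C, mul_one]), Finset.sum_const,
    smul_eq_mul] at this

lemma eval₂_tay (u : σ → ℂ) (w : σ → Polynomial ℂ) (y : Polynomial ℂ) (G : MvPolynomial σ ℂ) :
    Polynomial.eval₂ (aeval w : MvPolynomial σ ℂ →ₐ[ℂ] Polynomial ℂ).toRingHom y (tay u G)
      = aeval (fun i => w i + Polynomial.C (u i) * y) G := by
  induction G using MvPolynomial.induction_on with
  | C a => rw [tay_C]; simp
  | add f g hf hg => simp only [map_add, Polynomial.eval₂_add, hf, hg]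
  | mul_X f i hf =>
    rw [map_mul, Polynomial.eval₂_mul, hf, tay_X]
    simp

lemma aeval_taylor (u : σ → ℂ) (w : σ → Polynomial ℂ) (y : Polynomial ℂ) {F : MvPolynomial σ ℂ}
    {a : ℕ} (h : (dd u ^ (a + 1)) F = 0) :
    aeval (fun i => w i + Polynomial.C (u i) * y) F
      = ∑ c ∈ range a, (c.factorial : ℂ)⁻¹ • (aeval w ((dd u ^ c) F) * y ^ c)
        + (a.factorial : ℂ)⁻¹ • (aeval w ((dd u ^ a) F) * y ^ a) := by
  have hdeg : (tay u F).natDegree < a + 1 := by
    rw [Nat.lt_succ_iff, Polynomial.natDegree_le_iff_coeff_eq_zero]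
    intro N hN
    exact tay_coeff_eq_zero u h hN
  rw [← eval₂_tay, Polynomial.eval₂_eq_sum_range' _ hdeg, Finset.sum_range_succ]
  simp [tay_coeff_eq]

lemma aeval_lin (γ : σ → Polynomial ℂ) {ι : Type} (S : Finset ι) (z : ι → ℂ) (P : ι → σ → ℂ)
    (Q : ι → Polynomial ℂ) (hγ : ∀ s, γ s = ∑ i ∈ S, Polynomial.C (z i * P i s) * Q i)
    (f : Module.Dual ℂ (σ → ℂ)) :
    aeval γ (lin f) = ∑ i ∈ S, Polynomial.C (z i * f (P i)) * Q i := by
  rw [lin, map_sum]
  simp only [map_mul, aeval_C, aeval_X, hγ, Finset.mul_sum]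
  rw [Finset.sum_comm]
  apply Finset.sum_congr rfl
  intro i _
  rw [← dual_eq_sum f (P i), map_sum, Finset.mul_sum, Finset.sum_mul]
  apply Finset.sum_congr rfl
  intro s _
  simp only [Polynomial.algebraMap_eq, map_mul]
  ring

lemma dd_prod_eq_zero (p : σ → ℂ) {ι : Type} (S : Finset ι) (g : ι → MvPolynomial σ ℂ)
    (h : ∀ i ∈ S, dd p (g i) = 0) : dd p (∏ i ∈ S, g i) = 0 := by
  apply Finset.prod_induction g (fun x => dd p x = 0)
  · intro a b ha hb
    have := dd_pow_mul_of_zero p ha 1 b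
    rw [pow_one, hb, mul_zero] at this
    exact this
  · simp [dd_apply]
  · exact h

lemma lin_prod_hom (S : Finset ℕ) (f : ℕ → Module.Dual ℂ (σ → ℂ)) :
    (∏ j ∈ S, lin (f j)).IsHomogeneous S.card := by
  have := IsHomogeneous.prod S (fun j => lin (f j)) (fun _ => 1) (fun j _ => lin_hom _)
  simpa using this

lemma dd_pow_prod (p : σ → ℂ) (S T : Finset ℕ) (f : ℕ → Module.Dual ℂ (σ → ℂ)) {a : ℕ}
    (hT : T.card < a) (h : ∀ j ∈ S, j ∉ T → f j p = 0) :
    (dd p ^ a) (∏ j ∈ S, lin (f j)) = 0 := by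
  have h1 : dd p (∏ j ∈ S \ T, lin (f j)) = 0 := by
    apply dd_prod_eq_zero
    intro j hj
    rw [dd_lin, h j (Finset.mem_sdiff.mp hj).1 (Finset.mem_sdiff.mp hj).2, map_zero]
  rw [← Finset.prod_inter_mul_prod_sdiff S T, mul_comm, dd_pow_mul_of_zero p h1,
    dd_pow_eq_zero p (lin_prod_hom _ f)
      (lt_of_le_of_lt (Finset.card_le_card Finset.inter_subset_right) hT), mul_zero]

end General

/-- The first `n + 1` vectors are independent, with dual functionals `φ`, and the next two have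
coordinates `v` and `u` in general position. -/
structure Frame {n : ℕ} (q : ℕ → Fin (n + 1) → ℂ) (φ : ℕ → Module.Dual ℂ (Fin (n + 1) → ℂ))
    (u v : ℕ → ℂ) : Prop where
  dual : ∀ i ≤ n, ∀ k ≤ n, φ i (q k) = if i = k then 1 else 0
  hu : q (n + 2) = ∑ i ∈ range (n + 1), u i • q i
  hv : q (n + 1) = ∑ i ∈ range (n + 1), v i • q i
  u0 : ∀ i ≤ n, u i ≠ 0
  v0 : ∀ i ≤ n, v i ≠ 0
  uv : ∀ i ≤ n, ∀ k ≤ n, i ≠ k → u i * v k ≠ u k * v i

section Frame

variable {n : ℕ} {q : ℕ → Fin (n + 1) → ℂ} {φ : ℕ → Module.Dual ℂ (Fin (n + 1) → ℂ)}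
  {u v : ℕ → ℂ}

lemma Frame.sum_dual (h : Frame q φ u v) (z : ℕ → ℂ) {a : ℕ} (ha : a ≤ n) :
    ∑ i ∈ range (n + 1), z i * φ a (q i) = z a := by
  rw [Finset.sum_eq_single a]
  · rw [h.dual a ha a ha, if_pos rfl, mul_one]
  · intro b hb hba
    rw [h.dual a ha b (by simpa [Nat.lt_succ_iff] using hb), if_neg hba.symm, mul_zero]
  · intro h'
    exact absurd (Finset.mem_range.mpr (by omega)) h'

/-- The functional supported on the coordinates `α, β, γ` that kills `u` and `v`. -/
noncomputable def tri (φ : ℕ → Module.Dual ℂ (Fin (n + 1) → ℂ)) (u v : ℕ → ℂ) (α β γ : ℕ) :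
    Module.Dual ℂ (Fin (n + 1) → ℂ) :=
  (u β * v γ - u γ * v β) • φ α + (u γ * v α - u α * v γ) • φ β + (u α * v β - u β * v α) • φ γ

lemma Frame.sum_tri (h : Frame q φ u v) (z : ℕ → ℂ) {α β γ : ℕ} (hα : α ≤ n) (hβ : β ≤ n)
    (hγ : γ ≤ n) : ∑ i ∈ range (n + 1), z i * tri φ u v α β γ (q i)
      = (u β * v γ - u γ * v β) * z α + (u γ * v α - u α * v γ) * z β
        + (u α * v β - u β * v α) * z γ := by
  rw [← h.sum_dual z hα, ← h.sum_dual z hβ, ← h.sum_dual z hγ, Finset.mul_sum, Finset.mul_sum,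
    Finset.mul_sum, ← Finset.sum_add_distrib, ← Finset.sum_add_distrib]
  apply Finset.sum_congr rfl
  intro i _
  simp only [tri, LinearMap.add_apply, LinearMap.smul_apply, smul_eq_mul]
  ring

/-- The functional supported on the coordinates `3 j, 3 j + 1, 3 j + 2` modulo `n + 1`. -/
noncomputable def trj (φ : ℕ → Module.Dual ℂ (Fin (n + 1) → ℂ)) (u v : ℕ → ℂ) (j : ℕ) :
    Module.Dual ℂ (Fin (n + 1) → ℂ) :=
  tri φ u v (3 * j % (n + 1)) ((3 * j + 1) % (n + 1)) ((3 * j + 2) % (n + 1))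

lemma mod_le (y : ℕ) : y % (n + 1) ≤ n := Nat.lt_succ_iff.mp (Nat.mod_lt _ (Nat.succ_pos n))

lemma mod_ne (hn : 2 ≤ n) (y c : ℕ) (hc : 0 < c) (hc' : c ≤ 2) :
    y % (n + 1) ≠ (y + c) % (n + 1) := by
  intro h
  have h1 := (Nat.modEq_iff_dvd' (Nat.le_add_right y c)).mp h
  rw [Nat.add_sub_cancel_left] at h1
  have := Nat.le_of_dvd hc h1
  omega

lemma Frame.trj_u (h : Frame q φ u v) (j : ℕ) : trj φ u v j (q (n + 2)) = 0 := by
  rw [h.hu, map_sum]
  simp only [map_smul, smul_eq_mul]
  rw [trj, h.sum_tri u (mod_le _) (mod_le _) (mod_le _)]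
  ring

lemma Frame.trj_v (h : Frame q φ u v) (j : ℕ) : trj φ u v j (q (n + 1)) = 0 := by
  rw [h.hv, map_sum]
  simp only [map_smul, smul_eq_mul]
  rw [trj, h.sum_tri v (mod_le _) (mod_le _) (mod_le _)]
  ring

lemma Frame.trj_q (h : Frame q φ u v) {j k i : ℕ} (hj : 3 * j + 2 < (n + 1) * k) (hi : i ≤ n)
    (hT : j ∉ (range k).image (fun c => ((n + 1) * c + i) / 3)) : trj φ u v j (q i) = 0 := by
  have key : ∀ r ≤ 2, (3 * j + r) % (n + 1) ≠ i := by
    intro r hr h0
    apply hT
    refine Finset.mem_image.mpr ⟨(3 * j + r) / (n + 1),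
      Finset.mem_range.mpr (Nat.div_lt_of_lt_mul (by omega)), ?_⟩
    rw [← h0, Nat.div_add_mod]
    omega
  simp only [trj, tri, LinearMap.add_apply, LinearMap.smul_apply, smul_eq_mul]
  rw [h.dual _ (mod_le _) i hi, h.dual _ (mod_le _) i hi, h.dual _ (mod_le _) i hi,
    if_neg (show 3 * j % (n + 1) ≠ i from key 0 (by omega)), if_neg (key 1 (by omega)),
    if_neg (key 2 (by omega))]
  ring

lemma Frame.trj_b (h : Frame q φ u v) (hn : 2 ≤ n) (j : ℕ) :
    ∑ i ∈ range (n + 1), (u i * (u i / v i)) * trj φ u v j (q i) ≠ 0 := by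
  rw [trj, h.sum_tri (fun i => u i * (u i / v i)) (mod_le _) (mod_le _) (mod_le _)]
  have n0 := mod_ne hn (3 * j) 1 (by omega) (by omega)
  have n1 := mod_ne hn (3 * j + 1) 1 (by omega) (by omega)
  have n2 := mod_ne hn (3 * j) 2 (by omega) (by omega)
  have l0 := mod_le (n := n) (3 * j)
  have l1 := mod_le (n := n) (3 * j + 1)
  have l2 := mod_le (n := n) (3 * j + 2)
  rw [show 3 * j + 1 + 1 = 3 * j + 2 from rfl] at n1
  generalize 3 * j % (n + 1) = α at *
  generalize (3 * j + 1) % (n + 1) = β at *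
  generalize (3 * j + 2) % (n + 1) = γ at *
  have a0 := h.v0 α l0
  have a1 := h.v0 β l1
  have a2 := h.v0 γ l2
  have b0 := sub_ne_zero.mpr (h.uv α l0 β l1 n0)
  have b1 := sub_ne_zero.mpr (h.uv β l1 γ l2 n1)
  have b2 := sub_ne_zero.mpr (h.uv γ l2 α l0 n2.symm)
  intro h0
  apply mul_ne_zero (mul_ne_zero b0 b1) b2
  field_simp at h0
  linear_combination (-1 : ℂ) * h0

lemma Frame.ne_zero (h : Frame q φ u v) {k : ℕ} (hk : k ≤ n + 1) : q k ≠ 0 := by
  intro h0
  by_cases hkn : k ≤ n
  · have := h.dual k hkn k hkn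
    rw [h0, map_zero, if_pos rfl] at this
    exact zero_ne_one this
  · have h1 : k = n + 1 := by omega
    have h2 := congrArg (φ 0) h.hv
    rw [h1] at h0
    rw [h0, map_zero, map_sum] at h2
    simp only [map_smul, smul_eq_mul] at h2
    rw [h.sum_dual v (Nat.zero_le n)] at h2
    exact h.v0 0 (Nat.zero_le n) h2.symm

lemma Frame.mem (h : Frame q φ u v) {e k : ℕ} (he : 3 * e ≤ (n + 1) * k) :
    ∏ j ∈ range e, lin (trj φ u v j) ∈ V q (k + 1) (n + 2) e := by
  refine mem_V.mpr ⟨by simpa using lin_prod_hom (range e) (trj φ u v), fun i hi => ?_⟩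
  apply dd_pow_prod _ _ ((range k).image (fun c => ((n + 1) * c + i) / 3))
  · have := Finset.card_image_le (s := range k) (f := fun c => ((n + 1) * c + i) / 3)
    rw [Finset.card_range] at this
    omega
  · intro j hj hne
    by_cases hin : i ≤ n
    · exact h.trj_q (by have := Finset.mem_range.mp hj; omega) hin hne
    · rw [show i = n + 1 by omega]
      exact h.trj_v j

end Frame

theorem Frame.not_surj {m : ℕ} {q : ℕ → Fin (m + 1 + 1) → ℂ}
    {φ : ℕ → Module.Dual ℂ (Fin (m + 1 + 1) → ℂ)} {u v : ℕ → ℂ} (h : Frame q φ u v) (hm : 1 ≤ m)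
    {e k : ℕ} (he : 3 * e ≤ (m + 1 + 1) * k) (he' : (m + 1) * k ≤ 3 * e + 1) :
    (V q (k + 1) (m + 1 + 2) (e + (k + 1))).map (dd (q (m + 1 + 2)) ^ (k + 1))
      ≠ V q (k + 1) (m + 1 + 2) e := by
  intro heq
  have hG := h.mem he
  rw [← heq] at hG
  obtain ⟨F, hF, hFG⟩ := hG
  obtain ⟨hFh, hFk⟩ := mem_V.mp hF
  set b : ℕ → ℂ := fun i => u i / v i with hb
  set Q : ℕ → Polynomial ℂ :=
    fun i => ∏ k ∈ (range (m + 2)).erase i, (Polynomial.X - Polynomial.C (b k)) with hQ
  have hcard : ∀ i ∈ range (m + 2), ((range (m + 2)).erase i).card = m + 1 := by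
    intro i hi
    rw [Finset.card_erase_of_mem hi, Finset.card_range]
    rfl
  have hQm : ∀ i, (Q i).Monic := fun i =>
    Polynomial.monic_prod_of_monic _ _ (fun k _ => Polynomial.monic_X_sub_C _)
  have hQd : ∀ i ∈ range (m + 2), (Q i).natDegree = m + 1 := by
    intro i hi
    simp only [hQ]
    rw [Polynomial.natDegree_prod_of_monic _ _ (fun k _ => Polynomial.monic_X_sub_C _)]
    simp only [Polynomial.natDegree_X_sub_C, Finset.sum_const, smul_eq_mul, mul_one]
    exact hcard i hi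
  have hQl : ∀ i ∈ range (m + 2), (Q i - Polynomial.X ^ (m + 1)).natDegree ≤ m := by
    intro i hi
    rw [Polynomial.natDegree_le_iff_coeff_eq_zero]
    intro N hN
    rw [Polynomial.coeff_sub, Polynomial.coeff_X_pow]
    by_cases h1 : N = m + 1
    · rw [if_pos h1, h1, ← hQd i hi, (hQm i).coeff_natDegree, sub_self]
    · rw [if_neg h1, Polynomial.coeff_eq_zero_of_natDegree_lt (by rw [hQd i hi]; omega), sub_self]
  have hQc : ∀ i ∈ range (m + 2),
      (Q i - Polynomial.X ^ (m + 1)).coeff m = b i - ∑ k ∈ range (m + 2), b k := by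
    intro i hi
    have h1 := Polynomial.prod_X_sub_C_coeff_card_pred ((range (m + 2)).erase i) b
      (by rw [hcard i hi]; omega)
    rw [hcard i hi, Nat.add_sub_cancel] at h1
    rw [Polynomial.coeff_sub, Polynomial.coeff_X_pow, if_neg (by omega), sub_zero,
      ← Finset.add_sum_erase _ _ hi]
    simp only [hQ]
    rw [h1]
    ring
  set w : Fin (m + 1 + 1) → Polynomial ℂ := fun s =>
    ∑ i ∈ range (m + 2), Polynomial.C (u i * q i s) * (Q i - Polynomial.X ^ (m + 1)) with hw
  have hwd : ∀ s, (w s).natDegree ≤ m := by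
    intro s
    apply Polynomial.natDegree_sum_le_of_forall_le
    intro i hi
    exact le_trans (Polynomial.natDegree_C_mul_le _ _) (hQl i hi)
  set γ : Fin (m + 1 + 1) → Polynomial ℂ :=
    fun s => w s + Polynomial.C (q (m + 1 + 2) s) * Polynomial.X ^ (m + 1) with hγ
  have hγ' : ∀ s, γ s = ∑ i ∈ range (m + 2), Polynomial.C (u i * q i s) * Q i := by
    intro s
    simp only [hγ, hw]
    rw [h.hu, Finset.sum_apply, map_sum, Finset.sum_mul, ← Finset.sum_add_distrib]
    apply Finset.sum_congr rfl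
    intro i _
    simp only [Pi.smul_apply, smul_eq_mul]
    ring
  have hev : ∀ t : ℂ, (fun s => (γ s).eval t)
      = ∑ i ∈ range (m + 2), (u i * ∏ k ∈ (range (m + 2)).erase i, (t - b k)) • q i := by
    intro t
    funext s
    simp only [hγ', Polynomial.eval_finsetSum, Polynomial.eval_mul, Polynomial.eval_C, hQ,
      Polynomial.eval_prod, Polynomial.eval_sub, Polynomial.eval_X, Finset.sum_apply,
      Pi.smul_apply, smul_eq_mul]
    apply Finset.sum_congr rfl
    intro i _
    ring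
  -- the factors of `G` along the curve
  have hTd : ∀ j ∈ range e, (aeval w (lin (trj φ u v j))).natDegree ≤ m := by
    intro j _
    simpa using MvPolynomial.aeval_natDegree_le _ (lin_hom (trj φ u v j)).totalDegree_le w hwd
  have hTc : ∀ j ∈ range e, (aeval w (lin (trj φ u v j))).coeff m ≠ 0 := by
    intro j _
    rw [aeval_lin w (range (m + 2)) u q (fun i => Q i - Polynomial.X ^ (m + 1)) (fun s => rfl),
      Polynomial.finsetSum_coeff]
    have h1 := h.trj_u j
    rw [h.hu, map_sum] at h1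
    simp only [map_smul, smul_eq_mul] at h1
    have h2 : ∑ i ∈ range (m + 2), (Polynomial.C (u i * trj φ u v j (q i))
        * (Q i - Polynomial.X ^ (m + 1))).coeff m
        = ∑ i ∈ range (m + 2), (u i * (u i / v i)) * trj φ u v j (q i)
          - (∑ k ∈ range (m + 2), b k) * ∑ i ∈ range (m + 2), u i * trj φ u v j (q i) := by
      rw [Finset.mul_sum, ← Finset.sum_sub_distrib]
      apply Finset.sum_congr rfl
      intro i hi
      rw [Polynomial.coeff_C_mul, hQc i hi]
      simp only [hb]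
      ring
    rw [h2, h1, mul_zero, sub_zero]
    exact h.trj_b (by omega) j
  have hGc : (aeval w (∏ j ∈ range e, lin (trj φ u v j))).coeff (e * m) ≠ 0 := by
    rw [map_prod]
    have h1 := Polynomial.coeff_prod_of_natDegree_le (range e) _ m hTd
    rw [Finset.card_range] at h1
    rw [h1]
    exact Finset.prod_ne_zero_iff.mpr hTc
  have hGd : (aeval w (∏ j ∈ range e, lin (trj φ u v j))).natDegree ≤ e * m :=
    MvPolynomial.aeval_natDegree_le _ (mem_V.mp (h.mem he)).1.totalDegree_le w hwd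
  have hD3 : (dd (q (m + 1 + 2)) ^ (k + 1 + 1)) F = 0 := by
    rw [pow_succ', Module.End.mul_apply, hFG]
    apply dd_prod_eq_zero
    intro j _
    rw [dd_lin, h.trj_u j, map_zero]
  have hR := aeval_taylor (q (m + 1 + 2)) w (Polynomial.X ^ (m + 1)) hD3
  rw [hFG, ← pow_mul] at hR
  have d1 : (∑ c ∈ range (k + 1), (c.factorial : ℂ)⁻¹
      • (aeval w ((dd (q (m + 1 + 2)) ^ c) F) * (Polynomial.X ^ (m + 1)) ^ c)).natDegree
      ≤ (e + (k + 1)) * m + k := by
    apply Polynomial.natDegree_sum_le_of_forall_le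
    intro c hc
    have hc' : c ≤ k := by have := Finset.mem_range.mp hc; omega
    obtain ⟨c', rfl⟩ := Nat.exists_eq_add_of_le hc'
    have h1 := MvPolynomial.aeval_natDegree_le _
      (dd_pow_hom (q (m + 1 + 2)) hFh c).totalDegree_le w hwd
    rw [show e + (c + c' + 1) - c = e + c' + 1 by omega] at h1
    have h2 : ((Polynomial.X ^ (m + 1) : Polynomial ℂ) ^ c).natDegree = (m + 1) * c := by
      rw [← pow_mul, Polynomial.natDegree_X_pow]
    refine le_trans (Polynomial.natDegree_smul_le _ _) ?_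
    refine le_trans Polynomial.natDegree_mul_le (le_trans (add_le_add h1 h2.le) ?_)
    nlinarith
  have d2 : (((k + 1).factorial : ℂ)⁻¹ • (aeval w (∏ j ∈ range e, lin (trj φ u v j))
      * Polynomial.X ^ ((m + 1) * (k + 1)))).natDegree ≤ e * m + (m + 1) * (k + 1) := by
    refine le_trans (Polynomial.natDegree_smul_le _ _) ?_
    exact le_trans Polynomial.natDegree_mul_le (add_le_add hGd (by simp))
  have hRd : (aeval γ F).natDegree ≤ e * m + (m + 1) * (k + 1) := by
    rw [hγ, hR]
    refine le_trans (Polynomial.natDegree_add_le _ _) (max_le (le_trans d1 ?_) d2)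
    nlinarith
  have hR0 : aeval γ F ≠ 0 := by
    intro h0
    have h1 : (aeval γ F).coeff (e * m + (m + 1) * (k + 1)) = 0 := by rw [h0]; simp
    rw [hγ, hR, Polynomial.coeff_add,
      Polynomial.coeff_eq_zero_of_natDegree_lt (lt_of_le_of_lt d1 (by nlinarith)),
      Polynomial.coeff_smul, Polynomial.coeff_mul_X_pow, zero_add, smul_eq_mul] at h1
    exact mul_ne_zero (inv_ne_zero (by exact_mod_cast (k + 1).factorial_ne_zero)) hGc h1
  have hb0 : ∀ i ∈ range (m + 2), b i ≠ 0 := by
    intro i hi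
    have hi' : i ≤ m + 1 := by have := Finset.mem_range.mp hi; omega
    exact div_ne_zero (h.u0 i hi') (h.v0 i hi')
  have hbinj : Set.InjOn b (range (m + 2) : Finset ℕ) := by
    intro i hi k hk hik
    have hi' : i ≤ m + 1 := by have := Finset.mem_range.mp hi; omega
    have hk' : k ≤ m + 1 := by have := Finset.mem_range.mp hk; omega
    by_contra hne
    apply h.uv i hi' k hk' hne
    simp only [hb] at hik
    rwa [div_eq_div_iff (h.v0 i hi') (h.v0 k hk')] at hik
  have hroots := card_mul_le_natDegree hR0 (insert 0 ((range (m + 2)).image b)) (e + 1) (by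
    intro a ha
    apply dvd_aeval
    rcases Finset.mem_insert.mp ha with rfl | ha
    · have h1 : (fun s => (γ s).eval 0) = (-∏ k ∈ range (m + 2), (0 - b k)) • q (m + 1 + 1) := by
        rw [hev, h.hv, Finset.smul_sum]
        apply Finset.sum_congr rfl
        intro i hi
        have hi' : i ≤ m + 1 := by have := Finset.mem_range.mp hi; omega
        rw [smul_smul, ← Finset.mul_prod_erase _ _ hi]
        congr 1
        have h2 : b i * v i = u i := div_mul_cancel₀ _ (h.v0 i hi')
        rw [← h2]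
        ring
      rw [h1]
      have h3 := mem_ker_pow _ (h.ne_zero le_rfl) (-∏ k ∈ range (m + 2), (0 - b k)) hFh
        (hFk (m + 1 + 1) (by omega))
      rwa [show e + (k + 1) + 1 - (k + 1) = e + 1 by omega] at h3
    · obtain ⟨j, hj, rfl⟩ := Finset.mem_image.mp ha
      have hj' : j ≤ m + 1 := by have := Finset.mem_range.mp hj; omega
      have h1 : (fun s => (γ s).eval (b j))
          = (u j * ∏ k ∈ (range (m + 2)).erase j, (b j - b k)) • q j := by
        rw [hev, Finset.sum_eq_single j]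
        · intro i _ hij
          rw [Finset.prod_eq_zero (i := j) (Finset.mem_erase.mpr ⟨hij.symm, hj⟩) (sub_self _)]
          simp
        · intro h'
          exact absurd hj h'
      rw [h1]
      have h3 := mem_ker_pow _ (h.ne_zero (by omega))
        (u j * ∏ k ∈ (range (m + 2)).erase j, (b j - b k)) hFh (hFk j (by omega))
      rwa [show e + (k + 1) + 1 - (k + 1) = e + 1 by omega] at h3)
  rw [Finset.card_insert_of_notMem (by
    intro h0
    obtain ⟨j, hj, hj0⟩ := Finset.mem_image.mp h0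
    exact hb0 j hj hj0), Finset.card_image_of_injOn hbinj, Finset.card_range] at hroots
  nlinarith

end Pool.Agent.Lib.MP_efa40c_ag.SQ
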