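import Pool.Agent.Lib.MP_efa40c_ag.SQ.Curve

/-!
Semicontinuity of the dimensions, general position, and the degree in which the dimension exceeds
the expected one for every configuration.
-/

namespace Pool.Agent.Lib.MP_efa40c_ag.SQ

open MvPolynomial Finset

variable {n : ℕ}

/-- Evaluation of polynomials in the coordinates of a sequence of vectors. -/
noncomputable def ev (n : ℕ) :
    MvPolynomial (ℕ × Fin (n + 1)) ℂ →ₐ[ℂ] ((ℕ → Fin (n + 1) → ℂ) → ℂ) :=
  aeval (fun x q => q x.1 x.2)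

lemma ev_apply (E : MvPolynomial (ℕ × Fin (n + 1)) ℂ) (q : ℕ → Fin (n + 1) → ℂ) :
    ev n E q = eval (fun x => q x.1 x.2) E := by
  induction E using MvPolynomial.induction_on with
  | C a => simp [ev]
  | add f g hf hg => simp [hf, hg]
  | mul_X f i hf =>
    rw [map_mul, Pi.mul_apply, hf, map_mul]
    simp [ev]

lemma ev_eq_zero {E : MvPolynomial (ℕ × Fin (n + 1)) ℂ} (h : ev n E = 0) : E = 0 := by
  apply MvPolynomial.funext
  intro x
  have := congrFun h (fun i a => x (i, a))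
  rw [ev_apply] at this
  simpa using this

/-- The polynomial functions. -/
noncomputable def PF (n : ℕ) : Subalgebra ℂ ((ℕ → Fin (n + 1) → ℂ) → ℂ) := (ev n).range

lemma coord_mem (i : ℕ) (a : Fin (n + 1)) : (fun q : ℕ → Fin (n + 1) → ℂ => q i a) ∈ PF n :=
  ⟨X (i, a), by simp [ev]⟩

lemma const_mem (c : ℂ) : (fun _ : ℕ → Fin (n + 1) → ℂ => c) ∈ PF n :=
  (PF n).algebraMap_mem c

lemma PF_mul_ne_zero {f g : (ℕ → Fin (n + 1) → ℂ) → ℂ} (hf : f ∈ PF n) (hg : g ∈ PF n)
    (hf0 : f ≠ 0) (hg0 : g ≠ 0) : f * g ≠ 0 := by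
  obtain ⟨E, rfl⟩ := hf
  obtain ⟨E', rfl⟩ := hg
  intro h
  have h1 : ev n (E * E') = 0 := by rw [map_mul]; exact h
  rcases mul_eq_zero.mp (ev_eq_zero h1) with h2 | h2
  · exact hf0 (by rw [h2]; exact map_zero _)
  · exact hg0 (by rw [h2]; exact map_zero _)

lemma det_mem {ι : Type} [Fintype ι] [DecidableEq ι]
    (M : (ℕ → Fin (n + 1) → ℂ) → Matrix ι ι ℂ) (h : ∀ a b, (fun q => M q a b) ∈ PF n) :
    (fun q => (M q).det) ∈ PF n := by
  have h1 : (fun q => (M q).det) = ∑ σ : Equiv.Perm ι,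
      (fun _ => (((Equiv.Perm.sign σ : ℤˣ) : ℤ) : ℂ)) * ∏ i, (fun q => M q (σ i) i) := by
    funext q
    rw [Matrix.det_apply', Finset.sum_apply]
    simp
  rw [h1]
  exact (PF n).sum_mem (fun σ _ => (PF n).mul_mem (const_mem _) ((PF n).prod_mem fun i _ => h _ _))

/-- The property holds off the zero set of a nonzero polynomial function. -/
def Gen (P : (ℕ → Fin (n + 1) → ℂ) → Prop) : Prop :=
  ∃ f ∈ PF n, f ≠ 0 ∧ ∀ q, f q ≠ 0 → P q

lemma Gen.mono {P Q : (ℕ → Fin (n + 1) → ℂ) → Prop} (h : Gen P) (hPQ : ∀ q, P q → Q q) :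
    Gen Q := by
  obtain ⟨f, hf, h0, H⟩ := h
  exact ⟨f, hf, h0, fun q hq => hPQ q (H q hq)⟩

lemma Gen.and {P Q : (ℕ → Fin (n + 1) → ℂ) → Prop} (h : Gen P) (h' : Gen Q) :
    Gen (fun q => P q ∧ Q q) := by
  obtain ⟨f, hf, h0, H⟩ := h
  obtain ⟨g, hg, h0', H'⟩ := h'
  exact ⟨f * g, (PF n).mul_mem hf hg, PF_mul_ne_zero hf hg h0 h0',
    fun q hq => ⟨H q (left_ne_zero_of_mul hq), H' q (right_ne_zero_of_mul hq)⟩⟩

lemma gen_of_forall {P : (ℕ → Fin (n + 1) → ℂ) → Prop} (h : ∀ q, P q) : Gen P :=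
  ⟨1, (PF n).one_mem, one_ne_zero, fun q _ => h q⟩

lemma gen_ball {ι : Type} [DecidableEq ι] (S : Finset ι) (P : ι → (ℕ → Fin (n + 1) → ℂ) → Prop)
    (h : ∀ i ∈ S, Gen (P i)) : Gen (fun q => ∀ i ∈ S, P i q) := by
  induction S using Finset.induction_on with
  | empty => exact gen_of_forall (by simp)
  | insert a S ha ih =>
    refine ((h a (Finset.mem_insert_self _ _)).and
      (ih fun i hi => h i (Finset.mem_insert_of_mem hi))).mono ?_
    rintro q ⟨h1, h2⟩ i hi
    rcases Finset.mem_insert.mp hi with rfl | hi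
    · exact h1
    · exact h2 i hi

lemma gen_all {ι : Type} [Fintype ι] [DecidableEq ι] (P : ι → (ℕ → Fin (n + 1) → ℂ) → Prop)
    (h : ∀ i, Gen (P i)) : Gen (fun q => ∀ i, P i q) :=
  (gen_ball Finset.univ P (fun i _ => h i)).mono (fun _ hq i => hq i (Finset.mem_univ i))

lemma Gen.exists {P : (ℕ → Fin (n + 1) → ℂ) → Prop} (h : Gen P) : ∃ q, P q := by
  obtain ⟨f, -, h0, H⟩ := h
  obtain ⟨q, hq⟩ := Function.ne_iff.mp h0
  exact ⟨q, H q hq⟩

lemma gen_ne {f : (ℕ → Fin (n + 1) → ℂ) → ℂ} (hf : f ∈ PF n) (q₀ : ℕ → Fin (n + 1) → ℂ)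
    (h : f q₀ ≠ 0) : Gen (fun q => f q ≠ 0) :=
  ⟨f, hf, Function.ne_iff.mpr ⟨q₀, h⟩, fun _ hq => hq⟩

lemma semicont {M N : Type} [AddCommGroup M] [Module ℂ M] [AddCommGroup N] [Module ℂ N]
    (B : (ℕ → Fin (n + 1) → ℂ) → M →ₗ[ℂ] N) (W : Submodule ℂ M) [FiniteDimensional ℂ W]
    (hB : ∀ (l : N →ₗ[ℂ] ℂ) (x : M), (fun q => l (B q x)) ∈ PF n) (q₀ : ℕ → Fin (n + 1) → ℂ) :
    Gen (fun q => Module.finrank ℂ (W.map (B q₀)) ≤ Module.finrank ℂ (W.map (B q))) := by
  set β := Module.finBasis ℂ (W.map (B q₀))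
  choose w hw hw' using fun k => Submodule.mem_map.mp (β k).2
  choose l hl using fun k => LinearMap.exists_extend (β.coord k)
  have hl' : ∀ k (y : W.map (B q₀)), l k y = β.coord k y := fun k y =>
    congrArg (fun g : W.map (B q₀) →ₗ[ℂ] ℂ => g y) (hl k)
  have h1 : (Matrix.of (fun a b => l a (B q₀ (w b)))) = 1 := by
    ext a b
    rw [Matrix.of_apply, hw', hl', Matrix.one_apply, Module.Basis.coord_apply,
      Module.Basis.repr_self, Finsupp.single_apply]
    simp [eq_comm]
  refine (gen_ne (det_mem (fun q => Matrix.of (fun a b => l a (B q (w b))))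
    (fun a b => hB _ _)) q₀ (by rw [h1]; simp)).mono ?_
  intro q hq
  have hli : LinearIndependent ℂ
      (fun k => (⟨B q (w k), Submodule.mem_map_of_mem (hw k)⟩ : W.map (B q))) := by
    rw [Fintype.linearIndependent_iff]
    intro c hc
    have h2 : ∑ k, c k • B q (w k) = 0 := by
      have := congrArg Subtype.val hc
      simpa using this
    have h3 : (Matrix.of (fun a b => l a (B q (w b)))).mulVec c = 0 := by
      funext a
      have := congrArg (l a) h2
      rw [map_sum, map_zero] at this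
      simp only [map_smul, smul_eq_mul] at this
      simp only [Matrix.mulVec, dotProduct, Matrix.of_apply, Pi.zero_apply]
      rw [← this]
      exact Finset.sum_congr rfl (fun k _ => mul_comm _ _)
    exact congrFun (Matrix.eq_zero_of_mulVec_eq_zero hq h3)
  simpa using hli.fintype_card_le_finrank

lemma dd_eq_sum (p : Fin (n + 1) → ℂ) (F : MvPolynomial (Fin (n + 1)) ℂ) :
    dd p F = ∑ a, p a • pderiv a F := by
  rw [dd_apply, dirDer_eq_sum]
  exact Finset.sum_congr rfl (fun a _ => C_mul')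

lemma dd_pow_mem (l : MvPolynomial (Fin (n + 1)) ℂ →ₗ[ℂ] ℂ) (i a : ℕ)
    (F : MvPolynomial (Fin (n + 1)) ℂ) :
    (fun q : ℕ → Fin (n + 1) → ℂ => l ((dd (q i) ^ a) F)) ∈ PF n := by
  induction a generalizing F with
  | zero => exact const_mem (l F)
  | succ a ih =>
    have h1 : (fun q : ℕ → Fin (n + 1) → ℂ => l ((dd (q i) ^ (a + 1)) F))
        = ∑ b, (fun q : ℕ → Fin (n + 1) → ℂ => q i b)
          * (fun q => l ((dd (q i) ^ a) (pderiv b F))) := by
      funext q
      rw [pow_succ, Module.End.mul_apply, dd_eq_sum]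
      simp only [map_sum, map_smul, smul_eq_mul, Finset.sum_apply, Pi.mul_apply]
    rw [h1]
    exact (PF n).sum_mem (fun b _ => (PF n).mul_mem (coord_mem _ _) (ih _))

lemma gen_finrank_le (a s e : ℕ) (q₀ : ℕ → Fin (n + 1) → ℂ) :
    Gen (fun q : ℕ → Fin (n + 1) → ℂ =>
      Module.finrank ℂ (V q a s e) ≤ Module.finrank ℂ (V q₀ a s e)) := by
  set B : (ℕ → Fin (n + 1) → ℂ) →
      MvPolynomial (Fin (n + 1)) ℂ →ₗ[ℂ] (Fin s → MvPolynomial (Fin (n + 1)) ℂ) :=
    fun q => LinearMap.pi (fun i : Fin s => dd (q i) ^ a) with hB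
  have hV : ∀ q, V q a s e = homogeneousSubmodule (Fin (n + 1)) ℂ e ⊓ LinearMap.ker (B q) := by
    intro q
    ext F
    rw [mem_V, Submodule.mem_inf, mem_homogeneousSubmodule, LinearMap.mem_ker,
      _root_.funext_iff]
    simp only [hB, LinearMap.pi_apply, Pi.zero_apply]
    exact and_congr Iff.rfl ⟨fun h i => h i i.2, fun h i hi => h ⟨i, hi⟩⟩
  refine (semicont B (homogeneousSubmodule (Fin (n + 1)) ℂ e) ?_ q₀).mono ?_
  · intro l x
    have h1 : (fun q => l (B q x)) = ∑ i : Fin s,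
        fun q : ℕ → Fin (n + 1) → ℂ =>
          (l.comp (LinearMap.single ℂ (fun _ : Fin s => MvPolynomial (Fin (n + 1)) ℂ) i))
            ((dd (q i) ^ a) x) := by
      funext q
      rw [Finset.sum_apply, ← Finset.univ_sum_single (B q x), map_sum]
      rfl
    rw [h1]
    exact (PF n).sum_mem (fun i _ => dd_pow_mem _ _ _ _)
  · intro q hq
    have h1 := finrank_inf_add (B q) (homogeneousSubmodule (Fin (n + 1)) ℂ e)
    have h2 := finrank_inf_add (B q₀) (homogeneousSubmodule (Fin (n + 1)) ℂ e)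
    rw [hV, hV]
    omega

/-- The matrix whose columns are the first `n + 1` vectors. -/
def mat (q : ℕ → Fin (n + 1) → ℂ) : Matrix (Fin (n + 1)) (Fin (n + 1)) ℂ :=
  Matrix.of (fun a i => q i a)

lemma cramer_mem (k : ℕ) (i : Fin (n + 1)) :
    (fun q : ℕ → Fin (n + 1) → ℂ => (mat q).cramer (q k) i) ∈ PF n := by
  simp only [Matrix.cramer_apply]
  apply det_mem
  intro a b
  by_cases h : b = i
  · simp only [h, Matrix.updateCol_self]
    exact coord_mem _ _
  · simp only [Matrix.updateCol_ne h]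
    exact coord_mem _ _

/-- A configuration in general position. -/
noncomputable def ex (n : ℕ) : ℕ → Fin (n + 1) → ℂ := fun i a =>
  if i ≤ n then (if (a : ℕ) = i then 1 else 0) else if i = n + 1 then ((a : ℕ) : ℂ) + 1 else 1

lemma mat_ex : mat (ex n) = 1 := by
  ext a i
  have := i.2
  simp only [mat, ex, Matrix.of_apply, Matrix.one_apply, Fin.ext_iff]
  rw [if_pos (by omega)]

lemma gen_frame : Gen (fun q : ℕ → Fin (n + 1) → ℂ => ∃ φ u v, Frame q φ u v) := by
  have e1 : ∀ i, (mat (ex n)).cramer (ex n (n + 1)) i = ((i : ℕ) : ℂ) + 1 := by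
    intro i
    rw [mat_ex, Matrix.cramer_one]
    simp [ex]
  have e2 : ∀ i, (mat (ex n)).cramer (ex n (n + 2)) i = 1 := by
    intro i
    rw [mat_ex, Matrix.cramer_one]
    simp [ex]
  have g0 : Gen (fun q : ℕ → Fin (n + 1) → ℂ => (mat q).det ≠ 0) :=
    gen_ne (det_mem mat (fun a b => coord_mem _ _)) (ex n) (by rw [mat_ex]; simp)
  have g1 : Gen (fun q : ℕ → Fin (n + 1) → ℂ => ∀ i, (mat q).cramer (q (n + 1)) i ≠ 0) :=
    gen_all _ (fun i => gen_ne (cramer_mem _ i) (ex n) (by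
      rw [e1]; exact Nat.cast_add_one_ne_zero _))
  have g2 : Gen (fun q : ℕ → Fin (n + 1) → ℂ => ∀ i, (mat q).cramer (q (n + 2)) i ≠ 0) :=
    gen_all _ (fun i => gen_ne (cramer_mem _ i) (ex n) (by rw [e2]; exact one_ne_zero))
  have g3 : Gen (fun q : ℕ → Fin (n + 1) → ℂ => ∀ i k, i ≠ k →
      (mat q).cramer (q (n + 2)) i * (mat q).cramer (q (n + 1)) k
        - (mat q).cramer (q (n + 2)) k * (mat q).cramer (q (n + 1)) i ≠ 0) := by
    refine gen_all _ (fun i => gen_all _ (fun k => ?_))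
    by_cases hik : i = k
    · exact gen_of_forall (fun q h => absurd hik h)
    · refine (gen_ne ((PF n).sub_mem ((PF n).mul_mem (cramer_mem (n + 2) i) (cramer_mem (n + 1) k))
        ((PF n).mul_mem (cramer_mem (n + 2) k) (cramer_mem (n + 1) i))) (ex n) ?_).mono
        (fun q h _ => h)
      simp only [Pi.sub_apply, Pi.mul_apply, e1, e2, one_mul]
      intro h0
      apply hik
      apply Fin.ext
      have h1 : ((k : ℕ) : ℂ) = ((i : ℕ) : ℂ) := by linear_combination h0
      exact (Nat.cast_injective h1).symm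
  refine (((g0.and g1).and g2).and g3).mono ?_
  rintro q ⟨⟨⟨h0, h1⟩, h2⟩, h3⟩
  set φ : ℕ → Module.Dual ℂ (Fin (n + 1) → ℂ) := fun i =>
    if h : i < n + 1 then ((mat q).det)⁻¹ • (LinearMap.proj ⟨i, h⟩).comp (mat q).cramer else 0
    with hφ
  have hφ' : ∀ i (h : i < n + 1) x, φ i x = ((mat q).det)⁻¹ * (mat q).cramer x ⟨i, h⟩ := by
    intro i h x
    simp only [hφ, dif_pos h]
    rfl
  have hsum : ∀ x, x = ∑ i ∈ range (n + 1), φ i x • q i := by
    intro x
    rw [Finset.sum_range]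
    funext a
    have h4 := congrFun (Matrix.mulVec_cramer (mat q) x) a
    simp only [Matrix.mulVec, dotProduct, Pi.smul_apply, smul_eq_mul] at h4
    rw [Finset.sum_apply]
    have h5 : ∀ i : Fin (n + 1), (φ i x • q i) a
        = ((mat q).det)⁻¹ * (mat q a i * (mat q).cramer x i) := by
      intro i
      rw [Pi.smul_apply, hφ' i i.2, smul_eq_mul]
      simp only [mat, Matrix.of_apply, Fin.eta]
      ring
    rw [Finset.sum_congr rfl (fun i _ => h5 i), ← Finset.mul_sum, h4, ← mul_assoc,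
      inv_mul_cancel₀ h0, one_mul]
  refine ⟨φ, fun i => φ i (q (n + 2)), fun i => φ i (q (n + 1)), ?_, hsum _, hsum _, ?_, ?_, ?_⟩
  · intro i hi k hk
    rw [hφ' i (by omega), Matrix.cramer_row_self (mat q) (q k) ⟨k, by omega⟩ (fun j => rfl),
      Pi.single_apply]
    by_cases hik : i = k
    · rw [if_pos hik, if_pos (Fin.ext hik), inv_mul_cancel₀ h0]
    · rw [if_neg hik, if_neg (fun h => hik (congrArg Fin.val h)), mul_zero]
  · intro i hi
    rw [hφ' i (by omega)]
    exact mul_ne_zero (inv_ne_zero h0) (h2 _)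
  · intro i hi
    rw [hφ' i (by omega)]
    exact mul_ne_zero (inv_ne_zero h0) (h1 _)
  · intro i hi k hk hik
    simp only [hφ' i (by omega), hφ' k (by omega)]
    intro h4
    apply mul_ne_zero (mul_ne_zero (inv_ne_zero h0) (inv_ne_zero h0))
      (h3 ⟨i, by omega⟩ ⟨k, by omega⟩ (fun h => hik (congrArg Fin.val h)))
    linear_combination h4

/-- In some degree `m + k` with `1 ≤ m ≤ (n k + 4) / 3` the dimension exceeds the expected one for
every sequence of directions. -/
theorem exists_degree (n s k : ℕ) (hn : 2 ≤ n) (hs : n + 3 ≤ s) (hk : 1 ≤ k) :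
    ∃ m, 1 ≤ m ∧ 3 * m ≤ n * k + 4 ∧ ∀ q : ℕ → Fin (n + 1) → ℂ,
      fa n (k + 1) s (m + k) < (Module.finrank ℂ (V q (k + 1) s (m + k)) : ℤ) := by
  by_contra hc
  push Not at hc
  have g : Gen (fun q : ℕ → Fin (n + 1) → ℂ => ∀ e ∈ Finset.Icc (k + 1) ((n * k + 1) / 3 + (k + 1)),
      (Module.finrank ℂ (V q (k + 1) s e) : ℤ) ≤ fa n (k + 1) s e) := by
    apply gen_ball
    intro e he
    obtain ⟨h1, h2⟩ := Finset.mem_Icc.mp he
    obtain ⟨m, rfl⟩ : ∃ m, e = m + k := ⟨e - k, by omega⟩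
    obtain ⟨q₀, hq₀⟩ := hc m (by omega) (by omega)
    exact (gen_finrank_le _ s _ q₀).mono (fun q hq => le_trans (by exact_mod_cast hq) hq₀)
  obtain ⟨q, hq, φ, u, v, hF⟩ := (g.and gen_frame).exists
  obtain ⟨m, rfl⟩ : ∃ m, n = m + 1 := ⟨n - 1, by omega⟩
  refine hF.not_surj (by omega) (e := ((m + 1) * k + 1) / 3) (k := k) ?_ (by omega)
    ((surj_of_le q (k + 1) s _ (by omega)
      (fun e h1 h2 => hq e (Finset.mem_Icc.mpr ⟨h1, h2⟩))).2 _ le_rfl _ (by omega))
  rw [add_mul (m + 1) 1 k]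
  omega

lemma finrank_ex_le (n e : ℕ) : Module.finrank ℂ (V (ex n) 2 (n + 1) e) ≤ (n + 1).choose e := by
  set g : Finset (Fin (n + 1)) → MvPolynomial (Fin (n + 1)) ℂ :=
    fun S => monomial (∑ i ∈ S, Finsupp.single i 1) 1 with hg
  have hle : V (ex n) 2 (n + 1) e ≤ Submodule.span ℂ
      (((Finset.univ.powersetCard e).image g : Finset (MvPolynomial (Fin (n + 1)) ℂ)) :
        Set (MvPolynomial (Fin (n + 1)) ℂ)) := by
    intro F hF
    obtain ⟨h1, h2⟩ := mem_V.mp hF
    rw [F.as_sum]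
    apply Submodule.sum_mem
    intro α hα
    have hα1 : ∀ i, α i ≤ 1 := by
      intro i
      by_contra hi
      have h3 := h2 i i.2
      have h4 : ∀ G, dd (ex n i) G = pderiv i G := by
        intro G
        have := i.2
        rw [dd_eq_sum, Finset.sum_eq_single i]
        · simp only [ex]
          rw [if_pos (by omega), if_pos trivial, one_smul]
        · intro b _ hb
          simp only [ex]
          rw [if_pos (by omega), if_neg (fun h => hb (Fin.ext h)), zero_smul]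
        · simp
      rw [pow_two, Module.End.mul_apply, h4, h4] at h3
      have h5 := congrArg (coeff (α - Finsupp.single i 2)) h3
      have h6 : α - Finsupp.single i 2 + Finsupp.single i 1 + Finsupp.single i 1 = α := by
        ext b
        by_cases hb : b = i
        · subst hb
          simp only [Finsupp.coe_add, Finsupp.coe_tsub, Pi.add_apply, Pi.sub_apply,
            Finsupp.single_eq_same]
          omega
        · simp [Finsupp.single_eq_of_ne hb]
      rw [coeff_pderiv, coeff_pderiv, h6, coeff_zero] at h5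
      exact mul_ne_zero (mul_ne_zero (mem_support_iff.mp hα) (Nat.cast_add_one_ne_zero _))
        (Nat.cast_add_one_ne_zero _) h5
    have hα2 : ∑ i ∈ α.support, Finsupp.single i 1 = α := by
      conv_rhs => rw [← Finsupp.sum_single α, Finsupp.sum]
      apply Finset.sum_congr rfl
      intro i hi
      have h3 := hα1 i
      have h4 := Finsupp.mem_support_iff.mp hi
      congr 1
      omega
    have hα3 : α.support.card = e := by
      have h3 : α.degree = e := by
        by_contra h4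
        exact mem_support_iff.mp hα (h1.coeff_eq_zero h4)
      rw [← h3, ← hα2, map_sum]
      simp [hα2]
    have h7 : monomial α (coeff α F) = coeff α F • g α.support := by
      simp only [hg]
      rw [hα2, smul_monomial, smul_eq_mul, mul_one]
    rw [h7]
    apply Submodule.smul_mem
    apply Submodule.subset_span
    exact Finset.mem_coe.mpr (Finset.mem_image_of_mem g
      (Finset.mem_powersetCard.mpr ⟨Finset.subset_univ _, hα3⟩))
  refine le_trans (Submodule.finrank_mono hle) (le_trans (finrank_span_finset_le_card _) ?_)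
  refine le_trans Finset.card_image_le ?_
  simp

/-- Forms killed by all second derivatives exist in degree `(n + 7) / 3`. -/
theorem sq_ne_bot (n s : ℕ) (hs : n + 1 ≤ s) (h : 40 * s ≤ 41 * n + 24)
    (q₀ : ℕ → Fin (n + 1) → ℂ) : V q₀ 2 s ((n + 7) / 3) ≠ ⊥ := by
  have g : Gen (fun q : ℕ → Fin (n + 1) → ℂ => ∀ e ∈ Finset.range (n + 2),
      Module.finrank ℂ (V q 2 (n + 1) e) ≤ (n + 1).choose e) :=
    gen_ball _ _ (fun e _ => (gen_finrank_le 2 (n + 1) e (ex n)).mono
      (fun q hq => le_trans hq (finrank_ex_le n e)))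
  obtain ⟨q, hq, hq₀⟩ := (g.and (gen_finrank_le 2 s ((n + 7) / 3) q₀)).exists
  have h1 := (surj_of_le q 2 (n + 1) (n + 1) (by omega) (fun e _ he => by
    rw [fa_two, fr_choose]
    exact_mod_cast hq e (Finset.mem_range.mpr (by omega)))).1
  obtain ⟨x, rfl⟩ := Nat.exists_eq_add_of_le hs
  obtain ⟨d, hd, hd0⟩ := gs (n + 1) x ((n + 4) / 3) (by omega) (by omega)
    (fun j d => Module.finrank ℂ (V q 2 (n + 1 + j) d))
    (fun d hd => by
      have := h1 d hd
      rw [fa_two, fr_choose] at this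
      exact_mod_cast this)
    (fun j d hd => by rw [V_of_lt q _ hd, V_of_lt q _ hd])
    (fun j d => by
      have h2 := finrank_step q 2 (n + 1 + j) d
      have h3 := Submodule.finrank_mono (map_V_le q 2 (n + 1 + j) d)
      rw [← add_assoc (n + 1) j 1]
      omega)
    (fun d => Submodule.finrank_mono (V_anti q 2 d (by omega)))
  have h4 : V q 2 (n + 1 + x) ((n + 7) / 3) ≠ ⊥ :=
    V_ne_bot_of_le (e := d) (by omega) (fun hb => hd0 (Submodule.finrank_eq_zero.mpr hb))
  intro hb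
  rw [hb, finrank_bot] at hq₀
  exact h4 (Submodule.finrank_eq_zero.mp (by omega))

/-- The dimension exceeds both zero and the expected dimension. -/
theorem exists_special (n s k : ℕ) (hs : n + 5 ≤ s) (hk : 1 ≤ k)
    (h : 40 * s ≤ 41 * n + 24 ∨ (k = 1 ∧ (24 * s + 29 ≤ 25 * n ∨ (s = n + 5 ∧ 30 ≤ n)))) :
    ∃ m, 1 ≤ m ∧ 3 * m ≤ n * k + 4 ∧ ∀ q : ℕ → Fin (n + 1) → ℂ,
      max (fa n (k + 1) s (m + k)) 0 < (Module.finrank ℂ (V q (k + 1) s (m + k)) : ℤ) := by
  obtain ⟨m, h1, h2, h3⟩ := exists_degree n s k (by omega) (by omega) hk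
  refine ⟨m, h1, h2, fun q => ?_⟩
  rcases h with h | ⟨rfl, h⟩
  · refine max_lt (h3 q) ?_
    have h4 : m + k ≤ (n + 7) / 3 * k := by
      by_cases hk1 : k = 1
      · subst hk1
        omega
      · have h5 : (n + 5) * k ≤ 3 * ((n + 7) / 3) * k := Nat.mul_le_mul_right k (by omega)
        rw [add_mul, mul_assoc] at h5
        omega
    have h5 := V_ne_bot_of_le h4 (V_ne_bot_pow (sq_ne_bot n s (by omega) h q) k)
    have h6 : Module.finrank ℂ (V q (k + 1) s (m + k)) ≠ 0 :=
      fun h0 => h5 (Submodule.finrank_eq_zero.mp h0)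
    omega
  · rw [max_eq_left]
    · exact h3 q
    · rw [fa_two]
      exact fr_nonneg n s hs h _ (by omega)

end Pool.Agent.Lib.MP_efa40c_ag.SQ
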