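import Mathlib

/-!
The coefficients of `(1 - z ^ a) ^ j / (1 - z) ^ (n + 1)`: recurrences, positivity for `a = 2`,
the formula as a sum over subsets, the lexicographic comparison, and an inequality of
Golod-Shafarevich type.
-/

namespace Pool.Agent.Lib.MP_efa40c_ag.SQ

/-- The coefficient of `z ^ d` in `(1 - z ^ 2) ^ j / (1 - z) ^ (n + 1)`. -/
def fr (n : ℕ) : ℕ → ℕ → ℤ
  | 0, d => ((n + d).choose n : ℕ)
  | j + 1, 0 => fr n j 0
  | j + 1, 1 => fr n j 1
  | j + 1, d + 2 => fr n j (d + 2) - fr n j d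

lemma fr_zero_left (n d : ℕ) : fr n 0 d = ((n + d).choose n : ℕ) := by simp [fr]

lemma fr_succ_succ (n j d : ℕ) : fr n (j + 1) (d + 2) = fr n j (d + 2) - fr n j d := by simp [fr]

lemma fr_zero (n j : ℕ) : fr n j 0 = 1 := by
  induction j with
  | zero => simp [fr]
  | succ j ih => simpa [fr] using ih

lemma fr_one (n j : ℕ) : fr n j 1 = n + 1 := by
  induction j with
  | zero => simp [fr]
  | succ j ih => simpa [fr] using ih

lemma choose_step (n d : ℕ) :
    ((d : ℤ) + 1) * ((n + (d + 1)).choose n : ℕ) = ((n : ℤ) + d + 1) * ((n + d).choose n : ℕ) := by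
  have h := Nat.add_one_mul_choose_eq (n + d) d
  have h1 : (n + d).choose d = (n + d).choose n := Nat.choose_symm_add.symm
  have h2 : (n + d + 1).choose (d + 1) = (n + (d + 1)).choose n := by
    rw [add_assoc]; exact Nat.choose_symm_add.symm
  rw [h1, h2] at h
  have h3 : ((n + d + 1 : ℕ) : ℤ) * ((n + d).choose n : ℕ)
      = ((n + (d + 1)).choose n : ℕ) * ((d + 1 : ℕ) : ℤ) := by exact_mod_cast h
  push_cast at h3 ⊢
  linarith

lemma fr_rec (n j d : ℕ) : ((d : ℤ) + 2) * fr n j (d + 2)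
    = ((n : ℤ) + 1) * fr n j (d + 1) - (2 * (j : ℤ) - n - 1 - d) * fr n j d := by
  induction j generalizing d with
  | zero =>
    rw [fr_zero_left, fr_zero_left, fr_zero_left]
    have h1 := choose_step n d
    have h2 := choose_step n (d + 1)
    push_cast at h1 h2 ⊢
    rw [show n + (d + 1 + 1) = n + (d + 2) from rfl] at h2
    linear_combination h2 + h1
  | succ j ih =>
    rcases d with _ | _ | d
    · have h := ih 0
      rw [fr_succ_succ]
      simp only [zero_add, fr_zero, fr_one] at h ⊢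
      push_cast at h ⊢
      linear_combination h
    · have h := ih 1
      rw [fr_succ_succ, show 0 + 1 + 1 = 0 + 2 from rfl, fr_succ_succ]
      simp only [zero_add, fr_zero, fr_one] at h ⊢
      push_cast at h ⊢
      linear_combination h
    · have h := ih (d + 2)
      have h' := ih d
      rw [fr_succ_succ, show d + 1 + 1 + 1 = (d + 1) + 2 from rfl, fr_succ_succ,
        show d + 1 + 1 = d + 2 from rfl, fr_succ_succ]
      push_cast at h h' ⊢
      linear_combination h - h'

lemma fr_ratio (n s : ℕ) (hs : n + 5 ≤ s) (d : ℕ) (hd : 5 * d + 8 * s + 3 ≤ 10 * n) :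
    0 < fr n s d ∧ 3 * fr n s d ≤ 2 * fr n s (d + 1) := by
  induction d with
  | zero =>
    rw [fr_zero, fr_one]
    omega
  | succ d ih =>
    obtain ⟨h0, h1⟩ := ih (by omega)
    refine ⟨by omega, ?_⟩
    have h := fr_rec n s d
    have hN : (0 : ℤ) ≤ 2 * (s : ℤ) - n - 1 - d := by omega
    have h2 : (2 * (s : ℤ) - n - 1 - d) * (3 * fr n s d)
        ≤ (2 * (s : ℤ) - n - 1 - d) * (2 * fr n s (d + 1)) := mul_le_mul_of_nonneg_left h1 hN
    have h3 : (0 : ℤ) ≤ (10 * (n : ℤ) - 8 * s - 8 - 5 * d) * fr n s (d + 1) :=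
      mul_nonneg (by omega) (by omega)
    have h4 : ((d : ℤ) + 2) * (3 * (3 * fr n s (d + 1)))
        ≤ ((d : ℤ) + 2) * (3 * (2 * fr n s (d + 1 + 1))) := by
      rw [show d + 1 + 1 = d + 2 from rfl]
      nlinarith
    have h5 := le_of_mul_le_mul_left h4 (by omega)
    omega

lemma fr_nonneg_range (n s : ℕ) (hs : n + 5 ≤ s) (h : 24 * s + 29 ≤ 25 * n) (d : ℕ)
    (hd : 3 * d ≤ n + 7) : 0 ≤ fr n s d := by
  rcases d with _ | d
  · rw [fr_zero]; omega
  · have := fr_ratio n s hs d (by omega)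
    omega

/-- The pair of `d! * fr n s d` and `(d + 1)! * fr n s (d + 1)`. -/
def pr (n s : ℕ) : ℕ → ℤ × ℤ
  | 0 => (1, n + 1)
  | d + 1 => ((pr n s d).2,
      ((n : ℤ) + 1) * (pr n s d).2 - (2 * (s : ℤ) - n - 1 - d) * (d + 1) * (pr n s d).1)

lemma pr_eq (n s d : ℕ) : pr n s d
    = ((d.factorial : ℤ) * fr n s d, ((d + 1).factorial : ℤ) * fr n s (d + 1)) := by
  induction d with
  | zero => simp [pr, fr_zero, fr_one]
  | succ d ih =>
    rw [pr, ih]
    refine Prod.ext rfl ?_
    have h := fr_rec n s d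
    simp only [Nat.factorial_succ]
    push_cast
    rw [show d + 1 + 1 = d + 2 from rfl]
    linear_combination (-((d : ℤ) + 1) * d.factorial) * h

lemma pr_check : ∀ n < 149, 30 ≤ n → ∀ d < 52, 3 * d ≤ n + 7 → 0 ≤ (pr n (n + 5) d).1 := by
  decide +kernel

lemma fr_nonneg (n s : ℕ) (hs : n + 5 ≤ s) (h : 24 * s + 29 ≤ 25 * n ∨ (s = n + 5 ∧ 30 ≤ n))
    (d : ℕ) (hd : 3 * d ≤ n + 7) : 0 ≤ fr n s d := by
  by_cases h1 : 24 * s + 29 ≤ 25 * n
  · exact fr_nonneg_range n s hs h1 d hd
  · obtain ⟨rfl, h2⟩ := h.resolve_left h1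
    have h3 := pr_check n (by omega) h2 d (by omega) hd
    rw [pr_eq] at h3
    exact nonneg_of_mul_nonneg_right h3 (by exact_mod_cast d.factorial_pos) |> fun h => h

lemma fr_choose (n d : ℕ) : fr n (n + 1) d = ((n + 1).choose d : ℕ) := by
  have key : ∀ d, fr n (n + 1) d = ((n + 1).choose d : ℕ)
      ∧ fr n (n + 1) (d + 1) = ((n + 1).choose (d + 1) : ℕ) := by
    intro d
    induction d with
    | zero => simp [fr_zero, fr_one]
    | succ d ih =>
      refine ⟨ih.2, ?_⟩
      have h := fr_rec n (n + 1) d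
      rw [ih.1, ih.2] at h
      have hc : ∀ k : ℕ, (((n + 1).choose (k + 1) : ℕ) : ℤ) * (k + 1)
          = ((n + 1).choose k : ℕ) * ((n : ℤ) + 1 - k) := by
        intro k
        by_cases hk : k ≤ n + 1
        · have h1 := Nat.choose_succ_right_eq (n + 1) k
          have h2 : (((n + 1).choose (k + 1) * (k + 1) : ℕ) : ℤ)
              = (((n + 1).choose k * (n + 1 - k) : ℕ) : ℤ) := by rw [h1]
          push_cast [hk] at h2
          exact h2
        · rw [Nat.choose_eq_zero_of_lt (by omega), Nat.choose_eq_zero_of_lt (by omega)]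
          simp
      have h1 := hc d
      have h2 := hc (d + 1)
      apply mul_left_cancel₀ (a := (d : ℤ) + 2) (by omega)
      rw [show d + 1 + 1 = d + 2 from rfl] at h2 ⊢
      push_cast at h h1 h2 ⊢
      linear_combination h - h2 + h1
  exact (key d).1

/-- The coefficient of `z ^ d` in `(1 - z ^ a) ^ j / (1 - z) ^ (n + 1)`. -/
def fa (n a : ℕ) : ℕ → ℕ → ℤ
  | 0, d => ((n + d).choose n : ℕ)
  | j + 1, d => fa n a j d - if a ≤ d then fa n a j (d - a) else 0

lemma fa_zero_left (n a d : ℕ) : fa n a 0 d = ((n + d).choose n : ℕ) := by simp [fa]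

lemma fa_succ_add (n a j d : ℕ) : fa n a (j + 1) (d + a) = fa n a j (d + a) - fa n a j d := by
  simp [fa]

lemma fa_of_lt (n a j : ℕ) {d : ℕ} (h : d < a) : fa n a j d = ((n + d).choose n : ℕ) := by
  induction j with
  | zero => exact fa_zero_left n a d
  | succ j ih => rw [fa, if_neg (by omega), sub_zero, ih]

lemma fa_two (n j d : ℕ) : fa n 2 j d = fr n j d := by
  induction j generalizing d with
  | zero => rw [fa_zero_left, fr_zero_left]
  | succ j ih =>
    rcases d with _ | _ | d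
    · rw [fa_of_lt _ _ _ (by omega), fr_zero]; simp
    · rw [fa_of_lt _ _ _ (by omega), fr_one]; simp
    · rw [show d + 1 + 1 = d + 2 from rfl, fa_succ_add, fr_succ_succ, ih, ih]

/-- The term attached to a set of `k` points. -/
def tm (n a d k : ℕ) : ℤ := if a * k ≤ d then ((n + (d - a * k)).choose n : ℕ) else 0

lemma sum_powerset_tm {ι : Type} [DecidableEq ι] (n a : ℕ) (T : Finset ι) (d : ℕ) :
    ∑ I ∈ T.powerset, (-1 : ℤ) ^ I.card * tm n a d I.card = fa n a T.card d := by
  induction T using Finset.induction_on generalizing d with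
  | empty => simp [tm, fa_zero_left]
  | insert x T hx ih =>
    rw [Finset.sum_powerset_insert hx, ih, Finset.card_insert_of_notMem hx]
    have h1 : ∀ I ∈ T.powerset, (insert x I).card = I.card + 1 := fun I hI =>
      Finset.card_insert_of_notMem (fun h => hx (Finset.mem_powerset.mp hI h))
    rw [Finset.sum_congr rfl (fun I hI => by rw [h1 I hI])]
    by_cases hd : a ≤ d
    · obtain ⟨d, rfl⟩ : ∃ e, d = e + a := ⟨d - a, by omega⟩
      rw [fa_succ_add, ← ih d, sub_eq_add_neg, ← Finset.sum_neg_distrib]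
      congr 1
      apply Finset.sum_congr rfl
      intro I _
      have h2 : tm n a (d + a) (I.card + 1) = tm n a d I.card := by
        unfold tm
        rw [mul_add, mul_one]
        generalize a * I.card = y
        by_cases h : y ≤ d
        · rw [if_pos h, if_pos (by omega)]
          congr 3
          omega
        · rw [if_neg h, if_neg (by omega)]
      rw [h2]
      ring
    · rw [Finset.sum_eq_zero (fun I _ => by
        rw [tm, if_neg (by rw [mul_add, mul_one]; omega), mul_zero])]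
      rw [fa, if_neg hd]
      simp

/-- The sum over subsets of bounded size in the definition of the linear virtual dimension. -/
lemma virt_eq (n s k m : ℕ) (hn : 1 ≤ n) (hns : n ≤ s) (hd : m + k < (k + 1) * (n + 1)) :
    ∑ I ∈ Finset.univ.filter (fun I : Finset (Fin s) => I.card ≤ min n s),
      (-1 : ℤ) ^ I.card * ((n + ((∑ _i ∈ I, (m : ℤ))
        - ((I.card : ℤ) - 1) * ((m + k : ℕ) : ℤ)).toNat - I.card).choose n : ℕ)
      = fa n (k + 1) s (m + k) := by
  have h := sum_powerset_tm n (k + 1) (Finset.univ : Finset (Fin s)) (m + k)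
  rw [Finset.card_univ, Fintype.card_fin, Finset.powerset_univ] at h
  rw [← h, Finset.sum_filter]
  apply Finset.sum_congr rfl
  intro I _
  rw [Finset.sum_const, min_eq_left hns]
  generalize I.card = c
  have h1 : c • (m : ℤ) - ((c : ℤ) - 1) * ((m + k : ℕ) : ℤ) = (m : ℤ) + k - ((k * c : ℕ) : ℤ) := by
    rw [nsmul_eq_mul]
    push_cast
    ring
  rw [h1, tm, add_mul, one_mul]
  by_cases hc : c ≤ n
  · rw [if_pos hc]
    have hy : c = 0 → k * c = 0 := by rintro rfl; simp
    generalize k * c = y at hy ⊢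
    by_cases h2 : y + c ≤ m + k
    · rw [if_pos h2]
      congr 3
      omega
    · rw [if_neg h2, Nat.choose_eq_zero_of_lt (by omega)]
      simp
  · have h3 : (k + 1) * (n + 1) ≤ (k + 1) * c := Nat.mul_le_mul_left _ (by omega)
    rw [add_mul k 1 c, one_mul] at h3
    rw [if_neg hc, if_neg (by omega), mul_zero]

/-- The lexicographic comparison. -/
lemma lex (n a s D : ℕ) (ha : 1 ≤ a) (h r : ℕ → ℕ → ℤ) (h0 : ∀ d, h 0 d = fa n a 0 d)
    (hz : ∀ j, ∀ d < a, h j d = fa n a j d)
    (hstep : ∀ j d, h (j + 1) (d + a) + r j d = h j (d + a)) (hr : ∀ j d, r j d ≤ h j d)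
    (hle : ∀ e, a ≤ e → e ≤ D → h s e ≤ fa n a s e) :
    (∀ e ≤ D, ∀ j ≤ s, h j e = fa n a j e) ∧ ∀ e, e + a ≤ D → ∀ j < s, r j e = h j e := by
  have key : ∀ e, e + a ≤ D → (∀ j ≤ s, h j e = fa n a j e) →
      (∀ j ≤ s, h j (e + a) = fa n a j (e + a)) ∧ ∀ j < s, r j e = h j e := by
    intro e he hP
    have hd : ∀ j < s, h (j + 1) (e + a) - fa n a (j + 1) (e + a)
        = h j (e + a) - fa n a j (e + a) + (h j e - r j e) := by
      intro j hj
      have h1 := hstep j e
      have h2 := hP j hj.le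
      rw [fa_succ_add]
      omega
    have hup : ∀ j ≤ s, 0 ≤ h j (e + a) - fa n a j (e + a) := by
      intro j
      induction j with
      | zero => intro _; rw [h0]; omega
      | succ j ih =>
        intro hj
        have h1 := ih (by omega)
        have h2 := hd j (by omega)
        have h3 := hr j e
        omega
    have hdown : ∀ i ≤ s, h (s - i) (e + a) - fa n a (s - i) (e + a) ≤ 0 := by
      intro i
      induction i with
      | zero => intro _; have := hle (e + a) (by omega) he; simp only [Nat.sub_zero]; omega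
      | succ i ih =>
        intro hi
        have h1 := ih (by omega)
        have h2 := hd (s - (i + 1)) (by omega)
        have h3 := hr (s - (i + 1)) e
        rw [show s - (i + 1) + 1 = s - i by omega] at h2
        omega
    have hall : ∀ j ≤ s, h j (e + a) = fa n a j (e + a) := by
      intro j hj
      have h1 := hup j hj
      have h2 := hdown (s - j) (by omega)
      rw [show s - (s - j) = j by omega] at h2
      omega
    refine ⟨hall, fun j hj => ?_⟩
    have h1 := hd j hj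
    have h2 := hall j hj.le
    have h3 := hall (j + 1) hj
    omega
  have hP : ∀ e, e ≤ D → ∀ j ≤ s, h j e = fa n a j e := by
    intro e
    induction e using Nat.strong_induction_on with
    | _ e ih =>
      intro he
      by_cases hea : e < a
      · exact fun j _ => hz j e hea
      · obtain ⟨e, rfl⟩ : ∃ c, e = c + a := ⟨e - a, by omega⟩
        exact (key e he (ih e (by omega) (by omega))).1
  exact ⟨hP, fun e he => (key e he (hP e (by omega))).2⟩

lemma gs_num (N x D : ℕ) (hN : 40 * x + 17 ≤ N) (hD : 3 * D ≤ N + 3) :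
    (5 / 3 : ℝ) ^ D * (3 / 2) ^ N < (11 / 36) ^ x * (11 / 6) ^ N := by
  obtain ⟨y, rfl⟩ : ∃ y, N = 40 * x + 17 + y := ⟨N - (40 * x + 17), by omega⟩
  apply lt_of_pow_lt_pow_left₀ 3 (by positivity)
  have h1 : ((5 / 3 : ℝ) ^ D) ^ 3 ≤ (5 / 3) ^ (40 * x + 17 + y + 3) := by
    rw [← pow_mul]
    exact pow_le_pow_right₀ (by norm_num) (by omega)
  have h2 : ((5 / 3 : ℝ) ^ 40 * ((3 / 2) ^ 3) ^ 40) ^ x
      ≤ ((11 / 36) ^ 3 * ((11 / 6) ^ 3) ^ 40) ^ x :=
    pow_le_pow_left₀ (by positivity) (by norm_num) x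
  have h3 : ((5 / 3 : ℝ) * (3 / 2) ^ 3) ^ y ≤ ((11 / 6) ^ 3) ^ y :=
    pow_le_pow_left₀ (by positivity) (by norm_num) y
  have h4 : (5 / 3 : ℝ) ^ 20 * ((3 / 2) ^ 3) ^ 17 < ((11 / 6) ^ 3) ^ 17 := by norm_num
  calc ((5 / 3 : ℝ) ^ D * (3 / 2) ^ (40 * x + 17 + y)) ^ 3
      = ((5 / 3 : ℝ) ^ D) ^ 3 * ((3 / 2) ^ (40 * x + 17 + y)) ^ 3 := mul_pow _ _ _
    _ ≤ (5 / 3) ^ (40 * x + 17 + y + 3) * ((3 / 2) ^ (40 * x + 17 + y)) ^ 3 :=
        mul_le_mul_of_nonneg_right h1 (by positivity)
    _ = ((5 / 3 : ℝ) ^ 40 * ((3 / 2) ^ 3) ^ 40) ^ x * ((5 / 3 : ℝ) * (3 / 2) ^ 3) ^ y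
        * ((5 / 3 : ℝ) ^ 20 * ((3 / 2) ^ 3) ^ 17) := by
        simp only [mul_pow, ← pow_mul, pow_add]
        ring
    _ < ((11 / 36) ^ 3 * ((11 / 6) ^ 3) ^ 40) ^ x * ((11 / 6) ^ 3) ^ y * ((11 / 6) ^ 3) ^ 17 :=
        mul_lt_mul' (mul_le_mul h2 h3 (by positivity) (by positivity)) h4 (by positivity)
          (by positivity)
    _ = ((11 / 36) ^ x * (11 / 6) ^ (40 * x + 17 + y)) ^ 3 := by
        simp only [mul_pow, ← pow_mul, pow_add]
        ring

lemma sum_choose_pow (N : ℕ) (t : ℝ) :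
    ∑ d ∈ Finset.range (N + 1), (N.choose d : ℝ) * t ^ d = (t + 1) ^ N := by
  rw [add_pow]
  apply Finset.sum_congr rfl
  intro d _
  rw [one_pow]
  ring

/-- An inequality of Golod-Shafarevich type: the dimensions cannot vanish too early. -/
lemma gs (N x D : ℕ) (hN : 40 * x + 17 ≤ N) (hD : 3 * D ≤ N + 3) (h : ℕ → ℕ → ℕ)
    (h0 : ∀ d ≤ N, h 0 d = N.choose d) (hlow : ∀ j, ∀ d < 2, h j d ≤ h (j + 1) d)
    (hstep : ∀ j d, h j (d + 2) ≤ h (j + 1) (d + 2) + h j d) (hup : ∀ d, h x d ≤ h 0 d) :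
    ∃ d, D < d ∧ h x d ≠ 0 := by
  by_contra hc
  push Not at hc
  set S : ℕ → ℝ := fun j => ∑ d ∈ Finset.range (N + 1), (h j d : ℝ) * (5 / 6) ^ d with hS
  have hS1 : ∀ j, (11 / 36) * S j ≤ S (j + 1) := by
    intro j
    obtain ⟨M, rfl⟩ : ∃ M, N = M + 1 := ⟨N - 1, by omega⟩
    have e1 : ∀ i, S i = ∑ d ∈ Finset.range M, (h i (d + 2) : ℝ) * (5 / 6) ^ (d + 2)
        + (h i 1 : ℝ) * (5 / 6) + h i 0 := by
      intro i
      simp only [hS]
      rw [Finset.sum_range_succ', Finset.sum_range_succ']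
      simp
    have e2 : ∑ d ∈ Finset.range M, (h j d : ℝ) * (5 / 6) ^ d ≤ S j :=
      Finset.sum_le_sum_of_subset_of_nonneg (Finset.range_mono (by omega))
        (fun _ _ _ => by positivity)
    have e3 : ∑ d ∈ Finset.range M, (h j (d + 2) : ℝ) * (5 / 6) ^ (d + 2)
        ≤ ∑ d ∈ Finset.range M, (h (j + 1) (d + 2) : ℝ) * (5 / 6) ^ (d + 2)
          + (25 / 36) * ∑ d ∈ Finset.range M, (h j d : ℝ) * (5 / 6) ^ d := by
      rw [Finset.mul_sum, ← Finset.sum_add_distrib]
      apply Finset.sum_le_sum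
      intro d _
      have h1 : (h j (d + 2) : ℝ) ≤ h (j + 1) (d + 2) + h j d := by exact_mod_cast hstep j d
      have h2 := mul_le_mul_of_nonneg_right h1 (by positivity : (0 : ℝ) ≤ (5 / 6) ^ (d + 2))
      refine le_trans h2 (le_of_eq ?_)
      ring
    have e4 : (h j 1 : ℝ) ≤ h (j + 1) 1 := by exact_mod_cast hlow j 1 (by omega)
    have e5 : (h j 0 : ℝ) ≤ h (j + 1) 0 := by exact_mod_cast hlow j 0 (by omega)
    have e6 := e1 j
    have e7 := e1 (j + 1)
    linarith
  have hS2 : ∀ j, (11 / 36) ^ j * (11 / 6) ^ N ≤ S j := by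
    intro j
    induction j with
    | zero =>
      have := sum_choose_pow N (5 / 6)
      rw [pow_zero, one_mul, show (11 / 6 : ℝ) = 5 / 6 + 1 by norm_num, ← this]
      apply le_of_eq
      apply Finset.sum_congr rfl
      intro d hd
      rw [h0 d (by have := Finset.mem_range.mp hd; omega)]
    | succ j ih =>
      have := hS1 j
      rw [pow_succ]
      nlinarith
  have hS3 : S x ≤ (5 / 3) ^ D * (3 / 2) ^ N := by
    have := sum_choose_pow N (1 / 2)
    rw [show (3 / 2 : ℝ) = 1 / 2 + 1 by norm_num, ← this, Finset.mul_sum]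
    apply Finset.sum_le_sum
    intro d hd
    by_cases hdD : D < d
    · rw [hc d hdD]
      simp only [Nat.cast_zero, zero_mul]
      positivity
    · have h1 : (h x d : ℝ) ≤ N.choose d := by
        rw [← h0 d (by have := Finset.mem_range.mp hd; omega)]
        exact_mod_cast hup d
      have h2 : (5 / 3 : ℝ) ^ d ≤ (5 / 3) ^ D := pow_le_pow_right₀ (by norm_num) (by omega)
      have h3 : (5 / 6 : ℝ) ^ d = (5 / 3) ^ d * (1 / 2) ^ d := by
        rw [← mul_pow]; norm_num
      rw [h3]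
      calc (h x d : ℝ) * ((5 / 3) ^ d * (1 / 2) ^ d)
          ≤ N.choose d * ((5 / 3) ^ D * (1 / 2) ^ d) := by gcongr
        _ = _ := by ring
  have := gs_num N x D hN hD
  have := hS2 x
  linarith

end Pool.Agent.Lib.MP_efa40c_ag.SQ
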