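import Pool.Agent.Lib.MP_efa40c_ag.Basic
import Pool.Agent.Lib.MP_efa40c_ag.SQ.Num

/-!
Forms killed by the `a`-th powers of the derivatives in the first `j` of a sequence of directions.
-/

namespace Pool.Agent.Lib.MP_efa40c_ag.SQ

open MvPolynomial

variable {n : ℕ}

/-- The forms of degree `d` killed by the `a`-th derivative in the direction `q i` for `i < j`. -/
noncomputable def V (q : ℕ → Fin (n + 1) → ℂ) (a j d : ℕ) :
    Submodule ℂ (MvPolynomial (Fin (n + 1)) ℂ) :=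
  homogeneousSubmodule (Fin (n + 1)) ℂ d ⊓ ⨅ (i : ℕ) (_ : i < j), LinearMap.ker (dd (q i) ^ a)

lemma mem_V {q : ℕ → Fin (n + 1) → ℂ} {a j d : ℕ} {F : MvPolynomial (Fin (n + 1)) ℂ} :
    F ∈ V q a j d ↔ F.IsHomogeneous d ∧ ∀ i < j, (dd (q i) ^ a) F = 0 := by
  simp [V]

instance fin_hom (d : ℕ) : FiniteDimensional ℂ (homogeneousSubmodule (Fin (n + 1)) ℂ d) := by
  apply FiniteDimensional.of_finrank_pos
  rw [finrank_homogeneous]
  exact Nat.choose_pos (by simp)

instance fin_V (q : ℕ → Fin (n + 1) → ℂ) (a j d : ℕ) : FiniteDimensional ℂ (V q a j d) :=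
  Submodule.finiteDimensional_of_le (inf_le_left : V q a j d ≤ _)

lemma finrank_hom (d : ℕ) :
    Module.finrank ℂ (homogeneousSubmodule (Fin (n + 1)) ℂ d) = (n + d).choose n := by
  rw [finrank_homogeneous, Fintype.card_fin, show n + 1 + d - 1 = n + d by omega]
  exact Nat.choose_symm_add.symm

lemma V_of_lt (q : ℕ → Fin (n + 1) → ℂ) (j : ℕ) {a d : ℕ} (hd : d < a) :
    V q a j d = homogeneousSubmodule (Fin (n + 1)) ℂ d := by
  ext F
  rw [mem_V, mem_homogeneousSubmodule]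
  exact ⟨fun h => h.1, fun h => ⟨h, fun i _ => dd_pow_eq_zero _ h hd⟩⟩

lemma V_zero (q : ℕ → Fin (n + 1) → ℂ) (a d : ℕ) :
    V q a 0 d = homogeneousSubmodule (Fin (n + 1)) ℂ d := by
  ext F
  rw [mem_V, mem_homogeneousSubmodule]
  simp

lemma V_succ (q : ℕ → Fin (n + 1) → ℂ) (a j d : ℕ) :
    V q a (j + 1) d = V q a j d ⊓ LinearMap.ker (dd (q j) ^ a) := by
  ext F
  rw [Submodule.mem_inf, mem_V, mem_V, LinearMap.mem_ker]
  constructor
  · rintro ⟨h1, h2⟩
    exact ⟨⟨h1, fun i hi => h2 i (by omega)⟩, h2 j (by omega)⟩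
  · rintro ⟨⟨h1, h2⟩, h3⟩
    refine ⟨h1, fun i hi => ?_⟩
    by_cases hij : i = j
    · rw [hij]; exact h3
    · exact h2 i (by omega)

lemma map_V_le (q : ℕ → Fin (n + 1) → ℂ) (a j d : ℕ) :
    (V q a j (d + a)).map (dd (q j) ^ a) ≤ V q a j d := by
  rintro _ ⟨F, hF, rfl⟩
  obtain ⟨h1, h2⟩ := mem_V.mp hF
  refine mem_V.mpr ⟨by simpa using dd_pow_hom (q j) h1 a, fun i hi => ?_⟩
  rw [dd_pow_comm, h2 i hi, map_zero]

lemma finrank_inf_add {M N : Type} [AddCommGroup M] [Module ℂ M] [AddCommGroup N] [Module ℂ N]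
    (f : M →ₗ[ℂ] N) (W : Submodule ℂ M) [FiniteDimensional ℂ W] :
    Module.finrank ℂ ↥(W ⊓ LinearMap.ker f) + Module.finrank ℂ (W.map f) = Module.finrank ℂ W := by
  have h := LinearMap.finrank_range_add_finrank_ker (f.domRestrict W)
  rw [LinearMap.range_domRestrict, LinearMap.ker_domRestrict,
    ← Submodule.finrank_map_subtype_eq, Submodule.map_comap_subtype] at h
  omega

lemma finrank_step (q : ℕ → Fin (n + 1) → ℂ) (a j d : ℕ) :
    Module.finrank ℂ (V q a (j + 1) (d + a))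
      + Module.finrank ℂ ((V q a j (d + a)).map (dd (q j) ^ a))
      = Module.finrank ℂ (V q a j (d + a)) := by
  rw [V_succ]
  exact finrank_inf_add (dd (q j) ^ a) (V q a j (d + a))

/-- If the dimensions for all `s` directions do not exceed the expected ones up to degree `D`,
all dimensions are the expected ones and every `a`-th derivative is onto. -/
lemma surj_of_le (q : ℕ → Fin (n + 1) → ℂ) (a s D : ℕ) (ha : 1 ≤ a)
    (hle : ∀ e, a ≤ e → e ≤ D → (Module.finrank ℂ (V q a s e) : ℤ) ≤ fa n a s e) :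
    (∀ e ≤ D, (Module.finrank ℂ (V q a s e) : ℤ) = fa n a s e) ∧
    ∀ e, e + a ≤ D → ∀ j < s, (V q a j (e + a)).map (dd (q j) ^ a) = V q a j e := by
  have h := lex n a s D ha (fun j d => (Module.finrank ℂ (V q a j d) : ℤ))
    (fun j d => (Module.finrank ℂ ((V q a j (d + a)).map (dd (q j) ^ a)) : ℤ))
    (fun d => by rw [V_zero, finrank_hom, fa_zero_left])
    (fun j d hd => by rw [V_of_lt q j hd, finrank_hom, fa_of_lt _ _ _ hd])
    (fun j d => by exact_mod_cast finrank_step q a j d)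
    (fun j d => by exact_mod_cast Submodule.finrank_mono (map_V_le q a j d)) hle
  refine ⟨fun e he => h.1 e he s le_rfl, fun e he j hj => ?_⟩
  exact Submodule.eq_of_le_of_finrank_eq (map_V_le q a j e) (by exact_mod_cast h.2 e he j hj)

lemma V_anti (q : ℕ → Fin (n + 1) → ℂ) (a d : ℕ) {j k : ℕ} (h : j ≤ k) : V q a k d ≤ V q a j d := by
  intro F hF
  obtain ⟨h1, h2⟩ := mem_V.mp hF
  exact mem_V.mpr ⟨h1, fun i hi => h2 i (by omega)⟩

lemma V_ne_bot_succ {q : ℕ → Fin (n + 1) → ℂ} {a j d : ℕ} (h : V q a j (d + 1) ≠ ⊥) :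
    V q a j d ≠ ⊥ := by
  obtain ⟨F, hF, hF0⟩ := Submodule.exists_mem_ne_zero_of_ne_bot h
  obtain ⟨h1, h2⟩ := mem_V.mp hF
  intro hb
  have h3 : ∀ b, pderiv b F = 0 := by
    intro b
    have h4 : dd (Pi.single b 1) F = pderiv b F := by
      rw [dd_apply, dirDer_eq_sum, Finset.sum_eq_single b]
      · simp
      · intro c _ hc
        simp [Pi.single_eq_of_ne hc]
      · simp
    have h5 : dd (Pi.single b 1) F ∈ V q a j d := by
      refine mem_V.mpr ⟨by simpa using dd_hom _ h1, fun i hi => ?_⟩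
      have := dd_pow_comm (q i) (Pi.single b 1) a 1 F
      rw [pow_one, h2 i hi, map_zero] at this
      exact this
    rw [hb, Submodule.mem_bot] at h5
    rw [← h4, h5]
  have h6 := h1.sum_X_mul_pderiv
  simp only [h3, mul_zero, Finset.sum_const_zero] at h6
  rw [← Nat.cast_smul_eq_nsmul ℂ] at h6
  rcases smul_eq_zero.mp h6.symm with h7 | h7
  · exact Nat.succ_ne_zero d (by exact_mod_cast h7)
  · exact hF0 h7

lemma V_ne_bot_of_le {q : ℕ → Fin (n + 1) → ℂ} {a j d e : ℕ} (hde : d ≤ e) (h : V q a j e ≠ ⊥) :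
    V q a j d ≠ ⊥ := by
  obtain ⟨c, rfl⟩ := Nat.exists_eq_add_of_le hde
  induction c with
  | zero => exact h
  | succ c ih => exact ih (by omega) (V_ne_bot_succ h)

lemma V_ne_bot_pow {q : ℕ → Fin (n + 1) → ℂ} {j e : ℕ} (h : V q 2 j e ≠ ⊥) (k : ℕ) :
    V q (k + 1) j (e * k) ≠ ⊥ := by
  obtain ⟨F, hF, hF0⟩ := Submodule.exists_mem_ne_zero_of_ne_bot h
  obtain ⟨h1, h2⟩ := mem_V.mp hF
  intro hb
  have h3 : F ^ k ∈ V q (k + 1) j (e * k) := by
    refine mem_V.mpr ⟨h1.pow k, fun i hi => ?_⟩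
    have h4 : (tay (q i) F).natDegree ≤ 1 := by
      rw [Polynomial.natDegree_le_iff_coeff_eq_zero]
      intro N hN
      exact tay_coeff_eq_zero _ (h2 i hi) hN
    have h5 : (tay (q i) (F ^ k)).natDegree < k + 1 := by
      rw [map_pow]
      have := Polynomial.natDegree_pow_le_of_le k h4
      omega
    rw [← factorial_smul_tay_coeff, Polynomial.coeff_eq_zero_of_natDegree_lt h5, smul_zero]
  rw [hb, Submodule.mem_bot] at h3
  exact pow_ne_zero k hF0 h3

end Pool.Agent.Lib.MP_efa40c_ag.SQ
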